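import Pool.Agent.helper94.AP.SpecB

/-!
# AP, row BID: the identity for the bilinear sum
-/

set_option autoImplicit false

namespace Pool.Agent.AP

open Finset Pool.Agent.helper3.FT

theorem BID_rad_primes (w y : ℕ) : (rad w y).primeFactors = y.primeFactors.filter (fun q => w < q) := by
  rw [rad]
  exact Nat.primeFactors_prod fun p hp => Nat.prime_of_mem_primeFactors (mem_filter.1 hp).1

theorem BID_rad_dvd (w y : ℕ) : rad w y ∣ y :=
  (Finset.prod_dvd_prod_of_subset _ _ _ (filter_subset _ _)).trans (Nat.prod_primeFactors_dvd y)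

theorem BID_rad_ne (w y : ℕ) : rad w y ≠ 0 := by
  rw [rad, Finset.prod_ne_zero_iff]
  intro q hq
  exact (Nat.prime_of_mem_primeFactors (mem_filter.1 hq).1).ne_zero

theorem BID_rad_sq (w y : ℕ) : Squarefree (rad w y) := by
  rw [rad]
  refine Finset.squarefree_prod_of_pairwise_isCoprime ?_ ?_
  · intro p hp q hq hpq
    have hp' := Nat.prime_of_mem_primeFactors (mem_filter.1 (mem_coe.1 hp)).1
    have hq' := Nat.prime_of_mem_primeFactors (mem_filter.1 (mem_coe.1 hq)).1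
    exact Nat.coprime_iff_isRelPrime.1 ((Nat.coprime_primes hp' hq').2 hpq)
  · intro p hp
    exact (Nat.prime_of_mem_primeFactors (mem_filter.1 hp).1).prime.squarefree

/-- coprimality with `rad` -/
theorem BID_cop (w y n : ℕ) : Nat.Coprime (rad w y) n ↔ ∀ q ∈ y.primeFactors, w < q → ¬ q ∣ n := by
  constructor
  · intro h q hq hwq hqn
    have h1 : q ∣ rad w y := by
      apply Nat.dvd_of_mem_primeFactors
      rw [BID_rad_primes, mem_filter]
      exact ⟨hq, hwq⟩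
    have h2 := Nat.dvd_gcd h1 hqn
    rw [Nat.Coprime.gcd_eq_one h] at h2
    exact (Nat.prime_of_mem_primeFactors hq).one_lt.ne' (Nat.dvd_one.1 h2)
  · intro h
    rw [Nat.coprime_iff_gcd_eq_one]
    by_contra hne
    obtain ⟨q, hq, hqd⟩ := Nat.exists_prime_and_dvd hne
    have h1 := hqd.trans (Nat.gcd_dvd_left _ _)
    have h2 := hqd.trans (Nat.gcd_dvd_right _ _)
    have h3 : q ∈ (rad w y).primeFactors := Nat.mem_primeFactors.2 ⟨hq, h1, BID_rad_ne w y⟩
    rw [BID_rad_primes, mem_filter] at h3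
    exact h q h3.1 h3.2 h2

/-- the divisors which occur -/
theorem BID_div (w e₀ : ℕ) (hq : ∀ q : ℕ, q.Prime → (q ∣ e₀ ↔ q ≤ w)) (y : ℕ) (hy : y ≠ 0) :
    y.divisors.filter (fun d => Squarefree d ∧ Nat.Coprime d e₀) = (rad w y).divisors := by
  ext d
  rw [mem_filter, Nat.mem_divisors, Nat.mem_divisors]
  constructor
  · rintro ⟨⟨hd, -⟩, hsq, hco⟩
    refine ⟨?_, BID_rad_ne w y⟩
    rw [← Nat.prod_primeFactors_of_squarefree hsq, rad]
    refine Finset.prod_dvd_prod_of_subset _ _ _ fun q hqd => ?_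
    have hqp := Nat.prime_of_mem_primeFactors hqd
    have hqd' := Nat.dvd_of_mem_primeFactors hqd
    rw [mem_filter, Nat.mem_primeFactors]
    refine ⟨⟨hqp, hqd'.trans hd, hy⟩, ?_⟩
    by_contra hle
    have h1 := (hq q hqp).2 (not_lt.1 hle)
    have h2 := Nat.dvd_gcd hqd' h1
    rw [Nat.Coprime.gcd_eq_one hco] at h2
    exact hqp.one_lt.ne' (Nat.dvd_one.1 h2)
  · rintro ⟨hd, -⟩
    refine ⟨⟨hd.trans (BID_rad_dvd w y), hy⟩, (BID_rad_sq w y).squarefree_of_dvd hd, ?_⟩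
    rw [Nat.coprime_iff_gcd_eq_one]
    by_contra hne
    obtain ⟨q, hqp, hqd⟩ := Nat.exists_prime_and_dvd hne
    have h1 := hqd.trans (Nat.gcd_dvd_left _ _)
    have h2 := hqd.trans (Nat.gcd_dvd_right _ _)
    have h3 : q ∈ (rad w y).primeFactors := Nat.mem_primeFactors.2 ⟨hqp, h1.trans hd, BID_rad_ne w y⟩
    rw [BID_rad_primes, mem_filter] at h3
    have h4 := (hq q hqp).1 h2
    omega

/-- `kap` is a divisor sum -/
theorem BID_kap (w y : ℕ) (n : ℤ) : kap w y n = ∑ d ∈ (rad w y).divisors, jacobiSym n d := by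
  let f : ArithmeticFunction ℤ := ⟨fun d => if d = 0 then 0 else jacobiSym n d, by simp⟩
  have hf0 : ∀ d : ℕ, d ≠ 0 → f d = jacobiSym n d := fun d hd => if_neg hd
  have hf : f.IsMultiplicative := by
    rw [ArithmeticFunction.IsMultiplicative.iff_ne_zero]
    refine ⟨?_, ?_⟩
    · rw [hf0 1 one_ne_zero, jacobiSym.one_right]
    · intro a b ha hb _
      have : NeZero a := ⟨ha⟩
      have : NeZero b := ⟨hb⟩
      rw [hf0 _ (mul_ne_zero ha hb), hf0 a ha, hf0 b hb, jacobiSym.mul_right]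
  have h1 := hf.prodPrimeFactors_one_add_of_squarefree (BID_rad_sq w y)
  rw [BID_rad_primes] at h1
  rw [kap]
  refine Eq.trans ?_ (h1.trans ?_)
  · refine Finset.prod_congr rfl fun q hq => ?_
    rw [hf0 q (Nat.prime_of_mem_primeFactors (mem_filter.1 hq).1).ne_zero]
  · refine Finset.sum_congr rfl fun d hd => ?_
    exact hf0 d (Nat.pos_of_mem_divisors hd).ne'

theorem BID_term (w y n d : ℕ) (hy : y ≠ 0) (hd : d ∣ y) :
    (if Nat.Coprime (rad w (y / d)) n then jacobiSym (n : ℤ) d else 0) =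
      if Nat.Coprime (rad w y) n then jacobiSym (n : ℤ) d else 0 := by
  obtain ⟨k, rfl⟩ := hd
  have hd0 : d ≠ 0 := fun h => hy (by rw [h, zero_mul])
  have hk0 : k ≠ 0 := fun h => hy (by rw [h, mul_zero])
  rw [Nat.mul_div_cancel_left k (Nat.pos_of_ne_zero hd0)]
  have : NeZero d := ⟨hd0⟩
  by_cases hJ : jacobiSym (n : ℤ) d = 0
  · rw [hJ, ite_self, ite_self]
  · have hg : Int.gcd (n : ℤ) d = 1 := by
      by_contra hne
      exact hJ (jacobiSym.eq_zero_iff_not_coprime.2 hne)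
    have hg' : Nat.gcd n d = 1 := by
      rw [Int.gcd_natCast_natCast] at hg
      exact hg
    have hiff : Nat.Coprime (rad w k) n ↔ Nat.Coprime (rad w (d * k)) n := by
      rw [BID_cop, BID_cop, Nat.primeFactors_mul hd0 hk0]
      constructor
      · intro h q hq hwq hqn
        rcases mem_union.1 hq with h1 | h1
        · have h2 := Nat.dvd_gcd hqn (Nat.dvd_of_mem_primeFactors h1)
          rw [hg'] at h2
          exact (Nat.prime_of_mem_primeFactors h1).one_lt.ne' (Nat.dvd_one.1 h2)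
        · exact h q h1 hwq hqn
      · intro h q hq hwq
        exact h q (mem_union_right _ hq) hwq
    simp only [hiff]

/-- the identity for one `y` -/
theorem BID_y (w e₀ : ℕ) (hq : ∀ q : ℕ, q.Prime → (q ∣ e₀ ↔ q ≤ w)) (y n : ℕ) (hy : y ≠ 0) :
    ∑ d ∈ y.divisors.filter (fun d => 2 ≤ d ∧ Squarefree d ∧ Nat.Coprime d e₀),
      (if Nat.Coprime (rad w (y / d)) n then jacobiSym (n : ℤ) d else 0) =
    if Nat.Coprime (rad w y) n then kap w y (n : ℤ) - 1 else 0 := by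
  have h1 : y.divisors.filter (fun d => 2 ≤ d ∧ Squarefree d ∧ Nat.Coprime d e₀) = (rad w y).divisors.erase 1 := by
    rw [← BID_div w e₀ hq y hy]
    ext d
    simp only [mem_filter, mem_erase, Nat.mem_divisors]
    constructor
    · rintro ⟨h2, h3, h4⟩
      exact ⟨by omega, h2, h4⟩
    · rintro ⟨h2, h3, h4⟩
      have h5 : d ≠ 0 := fun h => hy (Nat.eq_zero_of_zero_dvd (h ▸ h3.1))
      exact ⟨h3, by omega, h4⟩
  rw [h1]
  have h2 : ∑ d ∈ (rad w y).divisors.erase 1, (if Nat.Coprime (rad w (y / d)) n then jacobiSym (n : ℤ) d else 0) =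
      ∑ d ∈ (rad w y).divisors.erase 1, (if Nat.Coprime (rad w y) n then jacobiSym (n : ℤ) d else 0) := by
    refine Finset.sum_congr rfl fun d hd => ?_
    exact BID_term w y n d hy ((Nat.dvd_of_mem_divisors (mem_erase.1 hd).2).trans (BID_rad_dvd w y))
  rw [h2]
  by_cases hc : Nat.Coprime (rad w y) n
  · simp only [if_pos hc]
    have h3 : (1 : ℕ) ∈ (rad w y).divisors := Nat.one_mem_divisors.2 (BID_rad_ne w y)
    have h4 := Finset.add_sum_erase (rad w y).divisors (fun d => jacobiSym (n : ℤ) d) h3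
    rw [BID_kap, ← h4]
    show _ = jacobiSym (n : ℤ) 1 + _ - 1
    rw [jacobiSym.one_right]
    ring
  · simp only [if_neg hc, sum_const_zero]

/-- reorganisation of the sum over the pairs `(d, k)` -/
theorem BID_pairs (Q : ℕ → Prop) [DecidablePred Q] (e₀ b V₁ V₂ : ℕ) (G : ℕ → ℕ → ℤ) :
    ∑ d ∈ (Icc 1 V₂).filter Q, ∑ k ∈ (Ioc (V₁ / d) (V₂ / d)).filter (fun k => d * k ≡ b [MOD e₀]), G d k =
    ∑ y ∈ (Ioc V₁ V₂).filter (fun y => y ≡ b [MOD e₀]), ∑ d ∈ y.divisors.filter Q, G d (y / d) := by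
  rw [Finset.sum_sigma', Finset.sum_sigma']
  refine Finset.sum_bij' (fun x _ => (⟨x.1 * x.2, x.1⟩ : (_ : ℕ) × ℕ)) (fun x _ => (⟨x.2, x.1 / x.2⟩ : (_ : ℕ) × ℕ))
    ?_ ?_ ?_ ?_ ?_
  · rintro ⟨d, k⟩ h
    simp only [mem_sigma, mem_filter, mem_Icc, mem_Ioc, Nat.mem_divisors] at h ⊢
    obtain ⟨⟨⟨h1, h2⟩, h3⟩, ⟨h4, h5⟩, h6⟩ := h
    have h7 : V₁ < d * k := by
      rw [Nat.div_lt_iff_lt_mul h1] at h4
      rwa [mul_comm]
    have h8 : d * k ≤ V₂ := by
      rw [Nat.le_div_iff_mul_le h1] at h5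
      rwa [mul_comm]
    exact ⟨⟨⟨h7, h8⟩, h6⟩, ⟨Dvd.intro k rfl, by omega⟩, h3⟩
  · rintro ⟨y, d⟩ h
    simp only [mem_sigma, mem_filter, mem_Icc, mem_Ioc, Nat.mem_divisors] at h ⊢
    obtain ⟨⟨⟨h1, h2⟩, h3⟩, ⟨h4, h5⟩, h6⟩ := h
    have hd : 0 < d := Nat.pos_of_dvd_of_pos h4 (Nat.pos_of_ne_zero h5)
    have h7 : d * (y / d) = y := Nat.mul_div_cancel' h4
    refine ⟨⟨⟨hd, (Nat.le_of_dvd (Nat.pos_of_ne_zero h5) h4).trans h2⟩, h6⟩, ⟨?_, ?_⟩, ?_⟩
    · rw [Nat.div_lt_iff_lt_mul hd, mul_comm, h7]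
      exact h1
    · exact Nat.div_le_div_right h2
    · rw [h7]
      exact h3
  · rintro ⟨d, k⟩ h
    simp only [mem_sigma, mem_filter, mem_Icc] at h
    have hd : 0 < d := h.1.1.1
    simp only [Nat.mul_div_cancel_left k hd]
  · rintro ⟨y, d⟩ h
    simp only [mem_sigma, mem_filter, Nat.mem_divisors] at h
    simp only [Nat.mul_div_cancel' h.2.1.1]
  · rintro ⟨d, k⟩ h
    simp only [mem_sigma, mem_filter, mem_Icc] at h
    have hd : 0 < d := h.1.1.1
    simp only [Nat.mul_div_cancel_left k hd]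

theorem BID : BID_stmt := by
  intro w e₀ hw he hq m a b Z₁ Z₂ V₁ V₂ hm
  rw [bs]
  have h1 : ∀ d : ℕ, (∑ k ∈ (Ioc (V₁ / d) (V₂ / d)).filter (fun k => d * k ≡ b [MOD e₀]),
      ∑ z ∈ (Ioc Z₁ Z₂).filter (fun z => z ≡ a [MOD e₀]),
        if Nat.Coprime (rad w k) (m * z) then jacobiSym ((m * z : ℕ) : ℤ) d else 0) =
      ∑ z ∈ (Ioc Z₁ Z₂).filter (fun z => z ≡ a [MOD e₀]),
        ∑ k ∈ (Ioc (V₁ / d) (V₂ / d)).filter (fun k => d * k ≡ b [MOD e₀]),
          if Nat.Coprime (rad w k) (m * z) then jacobiSym ((m * z : ℕ) : ℤ) d else 0 := fun d =>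
    Finset.sum_comm
  simp only [h1]
  refine Eq.trans ?_ Finset.sum_comm
  refine Finset.sum_congr rfl fun z _ => ?_
  have h2 := BID_pairs (fun d => 2 ≤ d ∧ Squarefree d ∧ Nat.Coprime d e₀) e₀ b V₁ V₂
    (fun d k => if Nat.Coprime (rad w k) (m * z) then jacobiSym ((m * z : ℕ) : ℤ) d else 0)
  refine Eq.trans ?_ h2.symm
  refine Finset.sum_congr rfl fun y hy => ?_
  rw [mem_filter, mem_Ioc] at hy
  exact (BID_y w e₀ hq y (m * z) (by omega)).symm

end Pool.Agent.AP
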