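import Pool.Agent.helper94.AP.SpecB

/-!
# AP, row BL2: few exceptional `z`
-/

set_option autoImplicit false

namespace Pool.Agent.AP

open Finset Pool.Agent.helper3.FT
open Pool.Agent.T5 (pr)

theorem BL2_dvd (w e₀ n a b : ℕ) (hq : ∀ q : ℕ, q.Prime → (q ∣ e₀ ↔ q ≤ w)) (ha : 0 < a) (hb : 0 < b)
    (hab : b ^ 2 * a = n) (hsq : Squarefree a) (hev : ∀ l : ℕ, l.Prime → ¬ l ∣ e₀ → Even (n.factorization l)) :
    a ∣ PP w := by
  rw [← Nat.prod_primeFactors_of_squarefree hsq, PP]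
  refine Finset.prod_dvd_prod_of_subset _ _ _ fun l hl => ?_
  have hlp := Nat.prime_of_mem_primeFactors hl
  have h1 : a.factorization l = 1 := by
    have h2 := (Nat.squarefree_iff_factorization_le_one ha.ne').1 hsq l
    have h3 : 0 < a.factorization l := hlp.factorization_pos_of_dvd ha.ne' (Nat.dvd_of_mem_primeFactors hl)
    omega
  have h4 : l ∣ e₀ := by
    by_contra hne
    have h5 := hev l hlp hne
    rw [← hab, Nat.factorization_mul (pow_ne_zero 2 hb.ne') ha.ne', Nat.factorization_pow, Finsupp.add_apply,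
      Finsupp.smul_apply, h1, smul_eq_mul] at h5
    rw [Nat.even_add_one] at h5
    exact h5 (even_two_mul _)
  have h6 := (hq l hlp).1 h4
  show l ∈ pr w
  rw [pr, mem_filter, mem_range]
  exact ⟨Nat.lt_succ_of_le h6, hlp⟩

theorem BL2 : BL2_stmt := by
  intro w e₀ hw he hq m hm Z hZ F hF
  have hex : ∀ z : ℕ, ∃ a b : ℕ, 0 < m * z → 0 < a ∧ 0 < b ∧ b ^ 2 * a = m * z ∧ Squarefree a := by
    intro z
    by_cases h : 0 < m * z
    · obtain ⟨a, b, h1⟩ := Nat.sq_mul_squarefree_of_pos h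
      exact ⟨a, b, fun _ => h1⟩
    · exact ⟨0, 0, fun h' => absurd h' h⟩
  choose a b hab using hex
  have hZ0 : (0 : ℝ) ≤ (m : ℝ) * Z := by positivity
  have hPP : PP w ≠ 0 := by
    rw [PP, Finset.prod_ne_zero_iff]
    intro q hq'
    rw [pr, mem_filter] at hq'
    exact hq'.2.ne_zero
  have hcard : F.card ≤ ((PP w).divisors ×ˢ Icc 1 ⌊√((m : ℝ) * Z)⌋₊).card := by
    refine Finset.card_le_card_of_injOn (fun z => (a z, b z)) ?_ ?_
    · intro z hz
      obtain ⟨h1, h2, h3⟩ := hF z hz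
      have hpos : 0 < m * z := Nat.mul_pos hm h1
      obtain ⟨ha, hb, h4, h5⟩ := hab z hpos
      show (a z, b z) ∈ (PP w).divisors ×ˢ Icc 1 ⌊√((m : ℝ) * Z)⌋₊
      rw [mem_product, Nat.mem_divisors, mem_Icc]
      refine ⟨⟨BL2_dvd w e₀ _ _ _ hq ha hb h4 h5 h3, hPP⟩, hb, ?_⟩
      apply Nat.le_floor
      apply Real.le_sqrt_of_sq_le
      have h6 : b z ^ 2 ≤ m * z := by
        rw [← h4]
        exact Nat.le_mul_of_pos_right _ ha
      calc ((b z : ℕ) : ℝ) ^ 2 ≤ ((m * z : ℕ) : ℝ) := by exact_mod_cast h6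
        _ ≤ (m : ℝ) * Z := by
          push_cast
          exact mul_le_mul_of_nonneg_left h2 (Nat.cast_nonneg _)
    · intro z hz z' hz' h
      have h1 := (hF z hz).1
      have h1' := (hF z' hz').1
      obtain ⟨-, -, h4, -⟩ := hab z (Nat.mul_pos hm h1)
      obtain ⟨-, -, h4', -⟩ := hab z' (Nat.mul_pos hm h1')
      have h7 : a z = a z' := congrArg Prod.fst h
      have h8 : b z = b z' := congrArg Prod.snd h
      rw [← h7, ← h8, h4] at h4'
      exact Nat.eq_of_mul_eq_mul_left hm h4'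
  rw [card_product, Nat.card_Icc, Nat.add_sub_cancel] at hcard
  calc (F.card : ℝ) ≤ (((PP w).divisors.card * ⌊√((m : ℝ) * Z)⌋₊ : ℕ) : ℝ) := by exact_mod_cast hcard
    _ = ((PP w).divisors.card : ℝ) * (⌊√((m : ℝ) * Z)⌋₊ : ℝ) := by push_cast; ring
    _ ≤ ((PP w).divisors.card : ℝ) * √((m : ℝ) * Z) :=
      mul_le_mul_of_nonneg_left (Nat.floor_le (Real.sqrt_nonneg _)) (Nat.cast_nonneg _)

end Pool.Agent.AP
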