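import Pool.Agent.helper3.AP.SpecG

/-!
# AP, row GAE: the ideals and the tuples of one discriminant
-/

set_option autoImplicit false

namespace Pool.Agent.AP

open Finset NumberField Pool.Agent.helper3.FT Pool.Agent.helper47.RA Pool.Agent.T5

theorem GAE (hGTB : GTB_stmt) (hGAI : GAI_stmt) (hGAP : GAP_stmt) (hGBE : GBE_stmt) (hGCI : GCI_stmt)
    (hAPPR : APPR_stmt) : GAE_stmt := by
  classical
  intro p hp hp5 N Y hN hY hNY D hD E
  have hodd : Odd p := hp.eq_two_or_odd'.resolve_left (by omega)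
  rw [DN] at hD
  obtain ⟨hD1', hD3, hD4⟩ := mem_filter.1 hD
  obtain ⟨hD1, hD2⟩ := mem_Icc.1 hD1'
  have hD5 : -(D : ℝ) ≤ N := by
    have h1 : -D ≤ ⌊N⌋ := by omega
    have h2 : ((-D : ℤ) : ℝ) ≤ N := Int.le_floor.1 h1
    push_cast at h2
    exact h2
  have hD8 : D < -4 := by
    have h1 : (D : ℝ) < ((-4 : ℤ) : ℝ) := by push_cast; linarith
    exact_mod_cast h1
  have hQD : E.Q.D = D := E.hD
  have hneg : E.Q.D < 0 := by rw [hQD]; omega
  have hneg4 : E.Q.D < -4 := by rw [hQD]; exact hD8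
  have hS : ∀ t : Q4, (Bas p N Y t ∧ dp p t = D) ↔
      (TK p E.Q.D t.1 t.2.1 t.2.2.1 t.2.2.2 ∧ Y / 2 < (t.1 : ℝ) * t.2.1 ∧ (t.1 : ℝ) * t.2.1 ≤ Y) := by
    rintro ⟨r, z, y, x⟩
    rw [hQD]
    constructor
    · intro h
      obtain ⟨h1, h2, h3, -, -⟩ := (hGTB.2 p N Y D r z y x).1 h
      exact ⟨h1, h2, h3⟩
    · rintro ⟨h1, h2, h3⟩
      exact (hGTB.2 p N Y D r z y x).2 ⟨h1, h2, h3, hD4, hD5⟩
  have himg : IAp p E.K Y = (fun t : Q4 => aid E.Q t.1 t.2.1 t.2.2.2 (t.2.2.1 : ℤ)) ''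
      {t : Q4 | Bas p N Y t ∧ dp p t = D} := by
    ext a
    constructor
    · rintro ⟨h0, h1, h2, h3, h4, h5⟩
      obtain ⟨r, z, y, x, hT, ha⟩ := hGBE p E.K E.Q hp5 hodd hneg a h0 h1 h2 h3
      obtain ⟨-, hn, -⟩ := hGAI p E.K E.Q r z y x hp5 hT
      rw [← ha] at hn
      refine ⟨(r, z, y, x), ?_, ha.symm⟩
      refine (hS (r, z, y, x)).2 ⟨hT, ?_, ?_⟩
      · rw [hn] at h4
        push_cast at h4
        exact h4
      · rw [hn] at h5
        push_cast at h5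
        exact h5
    · rintro ⟨⟨r, z, y, x⟩, ht, rfl⟩
      obtain ⟨hT, h2, h3⟩ := (hS (r, z, y, x)).1 ht
      obtain ⟨-, hn, hpr⟩ := hGAI p E.K E.Q r z y x hp5 hT
      have hpw := hGAP p E.K E.Q r z y x hp5 hodd hT
      have h4 : Y / 2 < ((Ideal.absNorm (aid E.Q r z x (y : ℤ)) : ℕ) : ℝ) := by
        rw [hn]
        push_cast
        exact h2
      have h5 : ((Ideal.absNorm (aid E.Q r z x (y : ℤ)) : ℕ) : ℝ) ≤ Y := by
        rw [hn]
        push_cast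
        exact h3
      have h0 : aid E.Q r z x (y : ℤ) ≠ ⊥ := by
        intro h0
        rw [h0, Ideal.absNorm_bot, Nat.cast_zero] at h4
        linarith
      refine ⟨h0, hpr, ?_, ?_, h4, h5⟩
      · show ((aid E.Q r z x (y : ℤ)) ^ p).IsPrincipal
        rw [hpw]
        exact ⟨⟨_, rfl⟩⟩
      · intro hprin
        have h6 : 4 * (Ideal.absNorm (aid E.Q r z x (y : ℤ)) : ℤ) < -E.Q.D := by
          rw [hQD]
          have h7 : ((4 * (Ideal.absNorm (aid E.Q r z x (y : ℤ)) : ℤ) : ℤ) : ℝ) < ((-D : ℤ) : ℝ) := by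
            push_cast
            linarith
          exact_mod_cast h7
        have h8 := hAPPR E.K E.Q (aid E.Q r z x (y : ℤ)) h0 hpr hprin h6
        rw [h8, Nat.cast_one] at h4
        linarith
  rw [himg]
  refine Set.InjOn.ncard_image ?_
  rintro ⟨r, z, y, x⟩ ht ⟨r', z', y', x'⟩ ht' heq
  obtain ⟨hT, -, -⟩ := (hS (r, z, y, x)).1 ht
  obtain ⟨hT', -, -⟩ := (hS (r', z', y', x')).1 ht'
  obtain ⟨h1, h2, -, h3⟩ := hGCI p E.K E.Q r z y r' z' y' x x' hp5 hodd hneg hT hT' heq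
  obtain ⟨h4, h5⟩ := h3 hneg4
  rw [h1, h2, h4, h5]

end Pool.Agent.AP
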