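import Pool.Agent.helper3.AP.SpecG

/-!
# AP, row GAI: the ideal `(θ, r z)`
-/

set_option autoImplicit false

namespace Pool.Agent.AP

open Finset NumberField Pool.Agent.helper3.FT Pool.Agent.helper47.RA Pool.Agent.T5

theorem GAI_bar {K : Type} [Field K] [NumberField K] (Q : QF K) (u : 𝓞 K) (c : ℕ) :
    Q.bar (Ideal.span {u, (c : 𝓞 K)}) = Ideal.span {Q.cj u, (c : 𝓞 K)} := by
  have h1 : Q.cj (c : 𝓞 K) = (c : 𝓞 K) := map_natCast Q.cj c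
  unfold QF.bar
  rw [Ideal.map_span, Set.image_pair]
  show Ideal.span {Q.cj u, Q.cj (c : 𝓞 K)} = _
  rw [h1]

theorem GAI (hGTH : GTH_stmt) (hGAR : GAR_stmt) : GAI_stmt := by
  intro p K _ _ Q r z y x hp hT
  obtain ⟨-, -, hxz, -, -, hr1⟩ := hGAR p Q.D r z y x hp Q.hD hT
  obtain ⟨hY, htr, hno⟩ := (hGTH K Q).1 x y ((r : ℤ) * (z : ℤ) ^ p) (by rw [hT.eq]; ring)
  obtain ⟨θ, hθ⟩ : ∃ θ : 𝓞 K, θ = th Q x y := ⟨_, rfl⟩
  rw [← hθ] at hY htr hno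
  have hpow : (((r : ℤ) * (z : ℤ) ^ p : ℤ) : 𝓞 K) = ((r * z : ℕ) : 𝓞 K) * (z : 𝓞 K) ^ (p - 1) := by
    have h1 : p = (p - 1) + 1 := by omega
    push_cast
    conv_lhs => rw [h1]
    ring
  rw [hpow] at hno
  have haid : aid Q r z x y = Ideal.span {θ, ((r * z : ℕ) : 𝓞 K)} := by rw [aid, hθ]
  have hmul : aid Q r z x y * Q.bar (aid Q r z x y) = Ideal.span {((r * z : ℕ) : 𝓞 K)} := by
    rw [haid, GAI_bar]
    apply le_antisymm
    · rw [Ideal.mul_le]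
      intro u hu v hv
      rw [Ideal.mem_span_pair] at hu hv
      obtain ⟨a1, b1, rfl⟩ := hu
      obtain ⟨a2, b2, rfl⟩ := hv
      rw [Ideal.mem_span_singleton]
      have e1 : (a1 * θ + b1 * ((r * z : ℕ) : 𝓞 K)) * (a2 * Q.cj θ + b2 * ((r * z : ℕ) : 𝓞 K)) =
          ((r * z : ℕ) : 𝓞 K) * (a1 * a2 * (z : 𝓞 K) ^ (p - 1) + a1 * b2 * θ + b1 * a2 * Q.cj θ +
            b1 * b2 * ((r * z : ℕ) : 𝓞 K)) := by
        have e2 : (a1 * θ + b1 * ((r * z : ℕ) : 𝓞 K)) * (a2 * Q.cj θ + b2 * ((r * z : ℕ) : 𝓞 K)) =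
            a1 * a2 * (θ * Q.cj θ) + ((r * z : ℕ) : 𝓞 K) * (a1 * b2 * θ + b1 * a2 * Q.cj θ +
            b1 * b2 * ((r * z : ℕ) : 𝓞 K)) := by ring
        rw [e2, hno]
        ring
      rw [e1]
      exact Dvd.intro _ rfl
    · rw [Ideal.span_singleton_le_iff_mem]
      have m1 : θ ∈ Ideal.span {θ, ((r * z : ℕ) : 𝓞 K)} := Ideal.subset_span (by simp)
      have m2 : ((r * z : ℕ) : 𝓞 K) ∈ Ideal.span {θ, ((r * z : ℕ) : 𝓞 K)} := Ideal.subset_span (by simp)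
      have m3 : Q.cj θ ∈ Ideal.span {Q.cj θ, ((r * z : ℕ) : 𝓞 K)} := Ideal.subset_span (by simp)
      have m4 : ((r * z : ℕ) : 𝓞 K) ∈ Ideal.span {Q.cj θ, ((r * z : ℕ) : 𝓞 K)} := Ideal.subset_span (by simp)
      have k1 := Ideal.mul_mem_mul m1 m4
      have k2 := Ideal.mul_mem_mul m2 m3
      have k3 := Ideal.mul_mem_mul m1 m3
      have k4 := Ideal.add_mem _ k1 k2
      have e3 : θ * ((r * z : ℕ) : 𝓞 K) + ((r * z : ℕ) : 𝓞 K) * Q.cj θ = ((r * z : ℕ) : 𝓞 K) * (x : 𝓞 K) := by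
        rw [← htr]
        ring
      rw [e3] at k4
      rw [hno] at k3
      have hcz : IsCoprime x ((z : ℤ) ^ (p - 1)) := hxz.pow_right
      obtain ⟨u, v, huv⟩ := hcz
      have huv' : (u : 𝓞 K) * (x : 𝓞 K) + (v : 𝓞 K) * (z : 𝓞 K) ^ (p - 1) = 1 := by
        have := congrArg (fun t : ℤ => (t : 𝓞 K)) huv
        push_cast at this
        simpa using this
      have e4 : ((r * z : ℕ) : 𝓞 K) = (u : 𝓞 K) * (((r * z : ℕ) : 𝓞 K) * (x : 𝓞 K)) +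
          (v : 𝓞 K) * (((r * z : ℕ) : 𝓞 K) * (z : 𝓞 K) ^ (p - 1)) := by
        calc ((r * z : ℕ) : 𝓞 K) = ((r * z : ℕ) : 𝓞 K) * 1 := (mul_one _).symm
          _ = _ := by rw [← huv']; ring
      have k5 := Ideal.add_mem _ (Ideal.mul_mem_left _ (u : 𝓞 K) k4) (Ideal.mul_mem_left _ (v : 𝓞 K) k3)
      rw [← e4] at k5
      exact k5
  refine ⟨hmul, ?_, ?_⟩
  · have h1 := congrArg Ideal.absNorm hmul
    rw [map_mul, QF.absNorm_bar, h96_norm_q Q (r * z), ← pow_two] at h1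
    exact Nat.pow_left_injective (n := 2) (by norm_num) h1
  · intro q hq hdvd
    rw [Ideal.dvd_iff_le, haid, Ideal.span_le] at hdvd
    have h1 : θ ∈ Ideal.span {(q : 𝓞 K)} := hdvd (by simp)
    have h2 : ((r * z : ℕ) : 𝓞 K) ∈ Ideal.span {(q : 𝓞 K)} := hdvd (by simp)
    rw [Ideal.mem_span_singleton] at h1 h2
    have hq0 : (q : ℤ) ≠ 0 := by exact_mod_cast hq.ne_zero
    have h3 : (q : ℤ) ∣ Q.Y θ := QF.h96_dvd_Y Q (q : ℤ) hq0 (by exact_mod_cast h1)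
    rw [hY] at h3
    have h4 : (q : ℤ) ∣ ((r * z : ℕ) : ℤ) := by
      have h5 := (Q.int_dvd_iff (q : ℤ) hq0 ((r * z : ℕ) : ℤ) 0).1 (by
        push_cast
        rw [zero_mul, add_zero]
        exact_mod_cast h2)
      exact h5.1
    have h6 : q ∣ y := Int.natCast_dvd_natCast.1 h3
    have h7 : q ∣ r * z := Int.natCast_dvd_natCast.1 h4
    have h8 := Nat.dvd_gcd h6 h7
    rw [Nat.Coprime.gcd_eq_one hT.co] at h8
    exact hq.one_lt.ne' (Nat.dvd_one.1 h8)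

end Pool.Agent.AP
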